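import Mathlib

/-! # Exact differentials are isotropic, without primitives

`δ = d/dx`, `E(a,b) = Σ_{i=1}^{p-1} (-1)^i δ^{i-1}(a) δ^{p-1-i}(b)`. -/

namespace MPadc574C

open Polynomial

noncomputable section

/-- `E(a,b) = Σ_{i=1}^{p-1} (-1)^i δ^{i-1}(a) δ^{p-1-i}(b)`; if `a = δ A` and `δ^{p-1} b = 0` this
is `δ^{p-1}(A b)`. -/
def Ed (p : ℕ) {F : Type*} [CommRing F] (δ : Derivation ℤ F F) (a b : F) : F :=
  ∑ i ∈ Finset.range (p - 1), (-1) ^ (i + 1) * (δ^[i] a * δ^[p - 2 - i] b)

section identities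

variable {F : Type*} [CommRing F] (δ : Derivation ℤ F F)

theorem iterate_add' (a b : F) (n : ℕ) : δ^[n] (a + b) = δ^[n] a + δ^[n] b := by
  induction n with
  | zero => rfl
  | succ n ih => rw [Function.iterate_succ_apply', ih, map_add, Function.iterate_succ_apply',
      Function.iterate_succ_apply']

theorem iterate_zero' (n : ℕ) : δ^[n] (0 : F) = 0 := by
  induction n with
  | zero => rfl
  | succ n ih => rw [Function.iterate_succ_apply', ih, map_zero]

theorem iterate_neg' (a : F) (n : ℕ) : δ^[n] (-a) = -δ^[n] a := by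
  induction n with
  | zero => rfl
  | succ n ih => rw [Function.iterate_succ_apply', ih, map_neg, Function.iterate_succ_apply']

/-- `E` is additive in the second variable. -/
theorem Ed_add_right (p : ℕ) (a b c : F) : Ed p δ a (b + c) = Ed p δ a b + Ed p δ a c := by
  unfold Ed
  rw [← Finset.sum_add_distrib]
  apply Finset.sum_congr rfl
  intro i _
  rw [iterate_add']
  ring

theorem Ed_neg_right (p : ℕ) (a b : F) : Ed p δ a (-b) = - Ed p δ a b := by
  unfold Ed
  rw [← Finset.sum_neg_distrib]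
  apply Finset.sum_congr rfl
  intro i _
  rw [iterate_neg']
  ring

/-- The first identity: `δ E(a,b) = δ^{p-1}(a) b - a δ^{p-1}(b)` for `p` odd. -/
theorem deriv_Ed {p : ℕ} (hp : Odd p) (hp1 : 1 < p) (a b : F) :
    δ (Ed p δ a b) = δ^[p - 1] a * b - a * δ^[p - 1] b := by
  have hev : Even (p - 1) := by
    obtain ⟨e, he⟩ := hp
    exact ⟨e, by omega⟩
  have key := Finset.sum_range_sub (fun i => (-1 : F) ^ i * (δ^[i] a * δ^[p - 1 - i] b)) (p - 1)
  simp only [Nat.sub_self, Nat.sub_zero, Function.iterate_zero, id_eq, pow_zero, one_mul,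
    hev.neg_one_pow] at key
  rw [← key, Ed, map_sum]
  apply Finset.sum_congr rfl
  intro i hi
  rw [Finset.mem_range] at hi
  have h1 : δ ((-1 : F) ^ (i + 1)) = 0 := by
    rcases Nat.even_or_odd (i + 1) with h | h
    · rw [h.neg_one_pow, Derivation.map_one_eq_zero]
    · rw [h.neg_one_pow, map_neg, Derivation.map_one_eq_zero, neg_zero]
  rw [Derivation.leibniz, h1, smul_zero, add_zero, Derivation.leibniz, smul_eq_mul, smul_eq_mul,
    smul_eq_mul, ← Function.iterate_succ_apply' (f := δ), ← Function.iterate_succ_apply' (f := δ)]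
  have h2 : p - 2 - i + 1 = p - 1 - i := by omega
  have h3 : p - 1 - (i + 1) = p - 2 - i := by omega
  rw [Nat.succ_eq_add_one, Nat.succ_eq_add_one, h2, h3]
  ring

/-- The Leibniz rule for an iterated derivation. -/
theorem iterate_leibniz (a b : F) (n : ℕ) :
    δ^[n] (a * b) = ∑ ij ∈ Finset.HasAntidiagonal.antidiagonal n, n.choose ij.1 • (δ^[ij.1] a * δ^[ij.2] b) := by
  induction n with
  | zero => simp
  | succ n ih =>
    rw [Finset.sum_antidiagonal_choose_succ_nsmul (M := F) (fun i j => δ^[i] a * δ^[j] b) n,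
      Function.iterate_succ_apply', ih, map_sum, ← Finset.sum_add_distrib]
    apply Finset.sum_congr rfl
    rintro ⟨i, j⟩ hij
    rw [Finset.HasAntidiagonal.mem_antidiagonal] at hij
    simp only
    have hch : n.choose i = n.choose j := by
      rw [← hij]
      exact Nat.choose_symm_add
    rw [map_nsmul, Derivation.leibniz, smul_eq_mul, smul_eq_mul, Function.iterate_succ_apply' (f := δ)
      (n := i), Function.iterate_succ_apply' (f := δ) (n := j), nsmul_add, ← hch, mul_comm (δ^[j] b)]

theorem choose_pred {p : ℕ} (hp : p.Prime) [CharP F p] (i : ℕ) (hi : i < p) :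
    (((p - 1).choose i : ℕ) : F) = (-1) ^ i := by
  induction i with
  | zero => simp
  | succ i ih =>
    have h1 : p.choose (i + 1) = (p - 1).choose i + (p - 1).choose (i + 1) := by
      have : p = (p - 1) + 1 := by have := hp.pos; omega
      conv_lhs => rw [this]
      rw [Nat.choose_succ_succ]
    have h2 : ((p.choose (i + 1) : ℕ) : F) = 0 := by
      rw [CharP.cast_eq_zero_iff F p]
      exact hp.dvd_choose_self (by omega) hi
    rw [h1, Nat.cast_add, ih (by omega)] at h2
    rw [pow_succ]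
    linear_combination h2

/-- In characteristic `p` one has `δ^{p-1}(ab) = Σ (-1)^i δ^i(a) δ^{p-1-i}(b)`. -/
theorem iterate_pred_mul {p : ℕ} (hp : p.Prime) [CharP F p] (a b : F) :
    δ^[p - 1] (a * b) = ∑ i ∈ Finset.range p, (-1) ^ i * (δ^[i] a * δ^[p - 1 - i] b) := by
  rw [iterate_leibniz, Finset.Nat.sum_antidiagonal_eq_sum_range_succ_mk]
  have h : (p - 1).succ = p := by have := hp.pos; omega
  rw [h]
  apply Finset.sum_congr rfl
  intro i hi
  rw [Finset.mem_range] at hi
  rw [nsmul_eq_mul, choose_pred hp i hi]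

/-- The second identity: `E(w, δw) = - δ^{p-1}(w²) + w δ^{p-1}(w)`. -/
theorem Ed_self {p : ℕ} (hp : p.Prime) (hp2 : Odd p) [CharP F p] (w : F) :
    Ed p δ w (δ w) = - δ^[p - 1] (w * w) + w * δ^[p - 1] w := by
  have hpos := hp.pos
  have hev : Even (p - 1) := by
    obtain ⟨e, he⟩ := hp2
    exact ⟨e, by omega⟩
  have h1 : p = (p - 1) + 1 := by omega
  rw [iterate_pred_mul δ hp]
  conv_rhs => rw [h1]
  rw [Finset.sum_range_succ]
  simp only [Nat.add_sub_cancel, Nat.sub_self, Function.iterate_zero, id_eq, hev.neg_one_pow]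
  rw [Ed]
  have h2 : ∑ i ∈ Finset.range (p - 1), (-1 : F) ^ (i + 1) * (δ^[i] w * δ^[p - 2 - i] (δ w)) =
      - ∑ i ∈ Finset.range (p - 1), (-1) ^ i * (δ^[i] w * δ^[p - 1 - i] w) := by
    rw [← Finset.sum_neg_distrib]
    apply Finset.sum_congr rfl
    intro i hi
    rw [Finset.mem_range] at hi
    rw [← Function.iterate_succ_apply (f := δ)]
    have h3 : (p - 2 - i).succ = p - 1 - i := by omega
    rw [h3]
    ring
  rw [h2]
  ring

end identities

end

end MPadc574C
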