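import Mathlib
import Pool.Agent.Lib.MP_adc574_ag_C.Iso

/-! # Isotropy: the trace of the square of a regular exact differential has no pole at `t` -/

namespace MPadc574C

open Polynomial

noncomputable section

/-- If `h₀` is coprime to its derivative and divides a polynomial with vanishing derivative, then
so does `h₀^p`. -/
theorem pow_dvd_of_derivative_zero {κ : Type*} [Field κ] {p : ℕ} [hp : Fact p.Prime] [CharP κ p]
    {h₀ N : κ[X]} (hc : IsCoprime h₀ (derivative h₀)) (h₀0 : h₀ ≠ 0) (hN : derivative N = 0)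
    (h1 : h₀ ∣ N) : h₀ ^ p ∣ N := by
  suffices H : ∀ k, k < p → h₀ ^ (k + 1) ∣ N by
    have := H (p - 1) (by have := hp.out.pos; omega)
    have h2 : p - 1 + 1 = p := by have := hp.out.pos; omega
    rwa [h2] at this
  intro k
  induction k with
  | zero => intro _; simpa using h1
  | succ k ih =>
    intro hk
    obtain ⟨z, hz⟩ := ih (by omega)
    rw [hz, derivative_mul, derivative_pow, Nat.add_sub_cancel] at hN
    have h3 : h₀ ^ k * (C ((k + 1 : ℕ) : κ) * derivative h₀ * z + h₀ * derivative z) = 0 := by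
      linear_combination hN
    have h4 := (mul_eq_zero.1 h3).resolve_left (pow_ne_zero _ h₀0)
    have h5 : h₀ ∣ C ((k + 1 : ℕ) : κ) * derivative h₀ * z := by
      refine ⟨- derivative z, ?_⟩
      linear_combination h4
    have hk0 : ((k + 1 : ℕ) : κ) ≠ 0 := by
      intro h0
      rw [CharP.cast_eq_zero_iff κ p] at h0
      have := Nat.le_of_dvd (by omega) h0
      omega
    have h6 : h₀ ∣ derivative h₀ * z := by
      have h7 : derivative h₀ * z = C (((k + 1 : ℕ) : κ)⁻¹) *
          (C ((k + 1 : ℕ) : κ) * derivative h₀ * z) := by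
        rw [mul_assoc (C ((k + 1 : ℕ) : κ)), ← mul_assoc, ← C_mul, inv_mul_cancel₀ hk0, C_1,
          one_mul]
      rw [h7]
      exact h5.mul_left _
    have h8 : h₀ ∣ z := hc.dvd_of_dvd_mul_left h6
    rw [hz, pow_succ _ (k + 1)]
    exact mul_dvd_mul_left _ h8

section main

variable {κ : Type*} [Field κ] {p : ℕ} {K : Type*} [Field K] [Algebra κ[X] K]
  [IsFractionRing κ[X] K] {F : Type*} [CommRing F] [Algebra K F]

/-- Polynomials as elements of `F`. -/
def rho (K : Type*) [Field K] [Algebra κ[X] K] (F : Type*) [CommRing F] [Algebra K F] :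
    κ[X] →+* F := (algebraMap K F).comp (algebraMap κ[X] K)

theorem T_rho_mul (T : F →ₗ[K] K) (f : κ[X]) (m : F) :
    T (rho K F f * m) = algebraMap κ[X] K f * T m := by
  rw [rho, RingHom.comp_apply, ← Algebra.smul_def, map_smul, smul_eq_mul]

theorem mem_iterate (δ : Derivation ℤ F F)
    (hδ : ∀ f : κ[X], δ (rho K F f) = rho K F (derivative f)) {M : AddSubgroup F}
    (hM : ∀ (f : κ[X]) (m : F), m ∈ M → rho K F f * m ∈ M) {h : κ[X]}
    (hB : ∀ m ∈ M, rho K F h * δ m ∈ M) {g q : κ[X]} (hg : h * derivative g = g * q) {v : F}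
    (hv : rho K F g * v ∈ M) (k : ℕ) : rho K F (h ^ k * g) * δ^[k] v ∈ M := by
  induction k with
  | zero => simpa using hv
  | succ k ih =>
    have h1 := hB _ ih
    have h2 := hM (C (k : κ) * derivative h + q) _ ih
    have h3 := M.sub_mem h1 h2
    have h4 : rho K F (h ^ (k + 1) * g) * δ^[k + 1] v =
        rho K F h * δ (rho K F (h ^ k * g) * δ^[k] v) -
          rho K F (C (k : κ) * derivative h + q) * (rho K F (h ^ k * g) * δ^[k] v) := by
      rw [Derivation.leibniz, hδ, Function.iterate_succ_apply', smul_eq_mul, smul_eq_mul]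
      have h5 : h * derivative (h ^ k * g) = (C (k : κ) * derivative h + q) * (h ^ k * g) := by
        rw [derivative_mul, derivative_pow]
        rcases Nat.eq_zero_or_pos k with h0 | h0
        · subst h0
          simp only [Nat.cast_zero, C_0, zero_mul, zero_add, pow_zero, one_mul]
          rw [hg, mul_comm]
        · obtain ⟨l, rfl⟩ : ∃ l, k = l + 1 := ⟨k - 1, by omega⟩
          rw [Nat.add_sub_cancel]
          linear_combination (h ^ (l + 1)) * hg
      have h6 := congrArg (rho K F) h5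
      rw [map_mul, map_mul (rho K F) (C (k : κ) * derivative h + q)] at h6
      rw [pow_succ, mul_assoc, mul_comm h, ← mul_assoc, map_mul (rho K F) (h ^ k * g) h]
      linear_combination (- δ^[k] v) * h6
    rw [h4]
    exact h3

/-- The pairing of derivatives: `h^(p-1) g T(δ^i w δ^j v)` is a polynomial for `i + j = p - 2`. -/
theorem exists_T_iterate (δ : Derivation ℤ F F)
    (hδ : ∀ f : κ[X], δ (rho K F f) = rho K F (derivative f)) {M : AddSubgroup F}
    (hM : ∀ (f : κ[X]) (m : F), m ∈ M → rho K F f * m ∈ M) {h : κ[X]}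
    (hB : ∀ m ∈ M, rho K F h * δ m ∈ M) (T : F →ₗ[K] K)
    (hC : ∀ m ∈ M, ∀ m' ∈ M, ∃ c : κ[X], T (rho K F h * (m * m')) = algebraMap κ[X] K c)
    {g q : κ[X]} (hg : h * derivative g = g * q) {w v : F} (hw : w ∈ M)
    (hv : rho K F g * v ∈ M) (i j : ℕ) :
    ∃ c : κ[X], T (rho K F (h ^ (i + j + 1) * g) * (δ^[i] w * δ^[j] v)) =
      algebraMap κ[X] K c := by
  have h1 := mem_iterate δ hδ hM hB (g := 1) (q := 0) (by simp) (v := w) (by simpa using hw) i
  have h2 := mem_iterate δ hδ hM hB hg hv j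
  obtain ⟨c, hc⟩ := hC _ h1 _ h2
  refine ⟨c, ?_⟩
  rw [← hc]
  congr 1
  simp only [map_mul, map_pow, map_one]
  ring

theorem exists_T_Ed (δ : Derivation ℤ F F)
    (hδ : ∀ f : κ[X], δ (rho K F f) = rho K F (derivative f)) {M : AddSubgroup F}
    (hM : ∀ (f : κ[X]) (m : F), m ∈ M → rho K F f * m ∈ M) {h : κ[X]}
    (hB : ∀ m ∈ M, rho K F h * δ m ∈ M) (T : F →ₗ[K] K)
    (hC : ∀ m ∈ M, ∀ m' ∈ M, ∃ c : κ[X], T (rho K F h * (m * m')) = algebraMap κ[X] K c)
    {g q : κ[X]} (hg : h * derivative g = g * q) {w v : F} (hw : w ∈ M)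
    (hv : rho K F g * v ∈ M) {p : ℕ} (hp : 2 ≤ p) :
    ∃ c : κ[X], T (rho K F (h ^ (p - 1) * g) * Ed p δ w v) = algebraMap κ[X] K c := by
  have H : ∀ i, ∃ c : κ[X], i < p - 1 → T (rho K F (h ^ (p - 1) * g) *
      (δ^[i] w * δ^[p - 2 - i] v)) = algebraMap κ[X] K c := by
    intro i
    by_cases hi : i < p - 1
    · obtain ⟨c, hc⟩ := exists_T_iterate δ hδ hM hB T hC hg hw hv i (p - 2 - i)
      refine ⟨c, fun _ => ?_⟩
      have h1 : i + (p - 2 - i) + 1 = p - 1 := by omega
      rw [h1] at hc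
      exact hc
    · exact ⟨0, fun h => absurd h hi⟩
  choose c hc using H
  refine ⟨∑ i ∈ Finset.range (p - 1), (-1) ^ (i + 1) * c i, ?_⟩
  rw [Ed, Finset.mul_sum, map_sum, map_sum]
  apply Finset.sum_congr rfl
  intro i hi
  rw [Finset.mem_range] at hi
  rw [map_mul (algebraMap κ[X] K), map_pow (algebraMap κ[X] K), map_neg, map_one, ← hc i hi]
  rcases Nat.even_or_odd (i + 1) with h1 | h1
  · rw [h1.neg_one_pow, h1.neg_one_pow, one_mul, one_mul]
  · rw [h1.neg_one_pow, h1.neg_one_pow, neg_one_mul, neg_one_mul, mul_neg, map_neg]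

variable [hp : Fact p.Prime] [CharP κ p]

/-- **Isotropy.** `w` and `v` are exact (`δ^{p-1} w = δ^{p-1} v = 0`), `w` is regular, `v` (the
derivative `D w`) is regular except at `t`, where `v + δ w` is regular. Then the trace of `w ^ 2`
has no pole at `t`. -/
theorem isotropy (hp2 : p ≠ 2) (δK : Derivation ℤ K K)
    (hδK : ∀ f : κ[X], δK (algebraMap κ[X] K f) = algebraMap κ[X] K (derivative f))
    (δ : Derivation ℤ F F) (hδ : ∀ f : κ[X], δ (rho K F f) = rho K F (derivative f))
    (T : F →ₗ[K] K) (hT : ∀ f, T (δ f) = δK (T f)) {M : AddSubgroup F}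
    (hM : ∀ (f : κ[X]) (m : F), m ∈ M → rho K F f * m ∈ M) {h₀ : κ[X]} {t : κ}
    (hh₀ : IsCoprime h₀ (derivative h₀)) (ht : h₀.eval t ≠ 0)
    (hB : ∀ m ∈ M, rho K F ((X - C t) * h₀) * δ m ∈ M)
    (hC : ∀ m ∈ M, ∀ m' ∈ M, ∃ c : κ[X],
      T (rho K F ((X - C t) * h₀) * (m * m')) = algebraMap κ[X] K c)
    {w v : F} (hw : w ∈ M) (hw1 : δ^[p - 1] w = 0) (hv1 : δ^[p - 1] v = 0)
    (hv : rho K F (X - C t) * v ∈ M) (hv2 : rho K F h₀ * (v + δ w) ∈ M)
    (hdeg : ∀ n : κ[X], algebraMap κ[X] K n =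
      T (rho K F (((X - C t) * h₀) ^ (p - 1) * (X - C t)) * Ed p δ w v) →
      n.degree < (h₀ ^ (p - 1)).degree)
    {c : κ[X]} (hc : algebraMap κ[X] K c = T (rho K F ((X - C t) * h₀) * (w * w))) :
    c.eval t = 0 := by
  have hprime := hp.out
  have hpos := hprime.pos
  have hodd : Odd p := hprime.odd_of_ne_two hp2
  have hinj : Function.Injective (algebraMap κ[X] K) := IsFractionRing.injective κ[X] K
  have h₀0 : h₀ ≠ 0 := by
    rintro rfl
    simp at ht
  set h : κ[X] := (X - C t) * h₀ with hh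
  have hh0 : h ≠ 0 := mul_ne_zero (X_sub_C_ne_zero _) h₀0
  have hCK : CharP K p :=
    charP_of_injective_ringHom (f := (algebraMap κ[X] K).comp C)
      (hinj.comp (C_injective (R := κ))) p
  rcases subsingleton_or_nontrivial F with hF | hF
  · have h1 : rho K F ((X - C t) * h₀) * (w * w) = 0 := Subsingleton.elim _ _
    rw [h1, map_zero, map_eq_zero_iff _ hinj] at hc
    rw [hc, eval_zero]
  have hCF : CharP F p := charP_of_injective_algebraMap (algebraMap K F).injective p
  -- the first part: `R = T (E (w, v)) = 0`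
  have hg1 : h * derivative (X - C t) = (X - C t) * h₀ := by
    rw [derivative_sub, derivative_X, derivative_C, sub_zero, mul_one]
  obtain ⟨n, hn⟩ := exists_T_Ed δ hδ hM hB T hC hg1 hw hv hprime.two_le
  have hndeg := hdeg n hn.symm
  have hR0 : δK (T (Ed p δ w v)) = 0 := by
    rw [← hT, deriv_Ed δ hodd hprime.one_lt, hw1, hv1, zero_mul, mul_zero, sub_zero]
    exact map_zero T
  have hderp : ∀ f : κ[X], derivative (f ^ p) = 0 := by
    intro f
    rw [derivative_pow, CharP.cast_eq_zero, C_0, zero_mul, zero_mul]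
  have hn2 : algebraMap κ[X] K (n * h₀) =
      algebraMap κ[X] K (h ^ p) * T (Ed p δ w v) := by
    rw [T_rho_mul] at hn
    rw [map_mul, ← hn, hh]
    obtain ⟨e, he⟩ : ∃ e, p = e + 1 := ⟨p - 1, by omega⟩
    rw [he, Nat.add_sub_cancel]
    simp only [map_mul, map_pow]
    ring
  have hder : derivative (n * h₀) = 0 := by
    apply hinj
    rw [← hδK, hn2, Derivation.leibniz, hR0, smul_zero, zero_add, hδK, hderp, map_zero, smul_zero]
  have hdvd := pow_dvd_of_derivative_zero hh₀ h₀0 hder (Dvd.intro_left _ rfl)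
  have hn0 : n = 0 := by
    by_contra hn0
    have h1 : h₀ ^ (p - 1) ∣ n := by
      obtain ⟨e, he⟩ : ∃ e, p = e + 1 := ⟨p - 1, by omega⟩
      rw [he, Nat.add_sub_cancel]
      rw [he, pow_succ] at hdvd
      exact (mul_dvd_mul_iff_right h₀0).1 hdvd
    have h2 := degree_le_of_dvd h1 hn0
    exact absurd hndeg (not_lt.2 h2)
  have hR : T (Ed p δ w v) = 0 := by
    rw [hn0, zero_mul, map_zero] at hn2
    rcases mul_eq_zero.1 hn2.symm with h1 | h1
    · exfalso
      rw [map_eq_zero_iff _ hinj] at h1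
      exact pow_ne_zero _ hh0 h1
    · exact h1
  -- the second part
  have hg2 : h * derivative h₀ = h₀ * ((X - C t) * derivative h₀) := by
    rw [hh]
    ring
  obtain ⟨c', hc'⟩ := exists_T_Ed δ hδ hM hB T hC hg2 hw hv2 hprime.two_le
  have hEv : Ed p δ w v = Ed p δ w (v + δ w) + δ^[p - 1] (w * w) := by
    rw [Ed_add_right, Ed_self δ hprime hodd, hw1, mul_zero, add_zero]
    ring
  have hTit : ∀ (k : ℕ) (f : F), T (δ^[k] f) = δK^[k] (T f) := by
    intro k f
    induction k with
    | zero => rfl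
    | succ k ih => rw [Function.iterate_succ_apply', hT, ih, Function.iterate_succ_apply']
  rw [hEv, map_add, hTit] at hR
  have hKit : ∀ (k : ℕ) (f : κ[X]), δK^[k] (algebraMap κ[X] K f) =
      algebraMap κ[X] K (derivative^[k] f) := by
    intro k f
    induction k with
    | zero => rfl
    | succ k ih => rw [Function.iterate_succ_apply', ih, hδK, Function.iterate_succ_apply']
  have hKmul : ∀ (k : ℕ) (f : κ[X]) (r : K), δK^[k] (algebraMap κ[X] K (f ^ p) * r) =
      algebraMap κ[X] K (f ^ p) * δK^[k] r := by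
    intro k f r
    induction k with
    | zero => rfl
    | succ k ih =>
      rw [Function.iterate_succ_apply', ih, Derivation.leibniz, hδK, hderp, map_zero, smul_zero,
        add_zero, smul_eq_mul, Function.iterate_succ_apply']
  have h5 : algebraMap κ[X] K ((X - C t) * c' + derivative^[p - 1] (h ^ (p - 1) * c)) = 0 := by
    have h6 : algebraMap κ[X] K (h ^ p) * T (Ed p δ w (v + δ w)) =
        algebraMap κ[X] K ((X - C t) * c') := by
      rw [T_rho_mul] at hc'
      rw [map_mul, ← hc', hh]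
      obtain ⟨e, he⟩ : ∃ e, p = e + 1 := ⟨p - 1, by omega⟩
      rw [he, Nat.add_sub_cancel]
      simp only [map_mul, map_pow]
      ring
    have h7 : algebraMap κ[X] K (h ^ p) * δK^[p - 1] (T (w * w)) =
        algebraMap κ[X] K (derivative^[p - 1] (h ^ (p - 1) * c)) := by
      rw [← hKmul, ← hKit]
      congr 1
      rw [map_mul (algebraMap κ[X] K) (h ^ (p - 1)), hc, T_rho_mul, ← mul_assoc,
        ← map_mul (algebraMap κ[X] K), ← pow_succ]
      have : p - 1 + 1 = p := by omega
      rw [this]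
    rw [map_add, ← h6, ← h7, ← mul_add, hR, mul_zero]
  have h8 : (X - C t) * c' + derivative^[p - 1] (h ^ (p - 1) * c) = 0 := by
    rwa [map_eq_zero_iff _ hinj] at h5
  have h9 := congrArg (eval t) h8
  rw [eval_add, eval_mul, eval_sub, eval_X, eval_C, sub_self, zero_mul, zero_add, eval_zero] at h9
  have h10 : h ^ (p - 1) * c = (X - C t) ^ (p - 1) * (h₀ ^ (p - 1) * c) := by
    rw [hh, mul_pow]
    ring
  rw [h10] at h9
  have h11 : eval t (derivative^[p - 1] ((X - C t) ^ (p - 1) * (h₀ ^ (p - 1) * c))) =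
      ((p - 1).factorial : κ) * eval t (h₀ ^ (p - 1) * c) := by
    have h12 := aeval_iterate_derivative_self (R := κ) (A := κ)
      ((X - C t) ^ (p - 1) * (h₀ ^ (p - 1) * c)) (p - 1) t (p' := h₀ ^ (p - 1) * c) (by simp)
    rw [nsmul_eq_mul] at h12
    rw [← h12]
    simp
  rw [h11, eval_mul, eval_pow] at h9
  have h12 : (((p - 1).factorial : ℕ) : κ) ≠ 0 := by
    intro h0
    rw [CharP.cast_eq_zero_iff κ p, hprime.dvd_factorial] at h0
    omega
  rcases mul_eq_zero.1 h9 with h13 | h13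
  · exact absurd h13 h12
  · exact (mul_eq_zero.1 h13).resolve_left (pow_ne_zero _ ht)

end main

end

end MPadc574C
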